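import Pool.Agent.H2.L.R_seed8.TH845.KN.A2
import Pool.Agent.H2.L.R_seed8.H261R2.CM.K4

/-!
# Norms of polynomials in several variables and substitutions
-/

set_option autoImplicit false

open NumberField Filter

namespace Pool.Agent.TH845.KN

open Pool.Agent.W242.IM Pool.Agent.H261R2.CM

noncomputable section

section general

variable {k : ℕ} {R : Type*} [CommRing R]

/-- the degree of the image of the monomial -/
def dt (e : Fin k → ℕ) (s : Fin k →₀ ℕ) : ℕ := ∑ i, e i * s i

theorem dt_add (e : Fin k → ℕ) (s t : Fin k →₀ ℕ) : dt e (s + t) = dt e s + dt e t := by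
  unfold dt
  rw [← Finset.sum_add_distrib]
  refine Finset.sum_congr rfl fun i _ => ?_
  rw [Finsupp.add_apply]
  ring

/-- the substitution `z_i = X ^ (e i)` -/
def sp (e : Fin k → ℕ) : MvPolynomial (Fin k) R →+* Polynomial R :=
  MvPolynomial.eval₂Hom Polynomial.C (fun i => Polynomial.X ^ (e i))

theorem sp_monomial (e : Fin k → ℕ) (s : Fin k →₀ ℕ) (a : R) :
    sp e (MvPolynomial.monomial s a) = Polynomial.monomial (dt e s) a := by
  unfold sp
  rw [MvPolynomial.coe_eval₂Hom, MvPolynomial.eval₂_monomial, Finsupp.prod_fintype _ _ (by simp)]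
  rw [← Polynomial.C_mul_X_pow_eq_monomial]
  congr 1
  unfold dt
  rw [← Finset.prod_pow_eq_pow_sum]
  refine Finset.prod_congr rfl fun i _ => ?_
  rw [pow_mul]

theorem sp_eq (e : Fin k → ℕ) (p : MvPolynomial (Fin k) R) :
    sp e p = ∑ s ∈ p.support, Polynomial.monomial (dt e s) (p.coeff s) := by
  conv_lhs => rw [p.as_sum]
  rw [map_sum]
  refine Finset.sum_congr rfl fun s _ => sp_monomial e s _

theorem sp_coeff (e : Fin k → ℕ) (p : MvPolynomial (Fin k) R)
    (hinj : ∀ s ∈ p.support, ∀ t ∈ p.support, dt e s = dt e t → s = t) (s : Fin k →₀ ℕ)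
    (hs : s ∈ p.support) : (sp e p).coeff (dt e s) = p.coeff s := by
  rw [sp_eq, Polynomial.finset_sum_coeff, Finset.sum_eq_single s]
  · rw [Polynomial.coeff_monomial, if_pos rfl]
  · intro t ht hts
    rw [Polynomial.coeff_monomial, if_neg]
    intro h
    exact hts (hinj t ht s hs h)
  · intro h
    exact absurd hs h

theorem sp_coeff_ne (e : Fin k → ℕ) (p : MvPolynomial (Fin k) R) (m : ℕ)
    (h : (sp e p).coeff m ≠ 0) : ∃ s ∈ p.support, dt e s = m := by
  rw [sp_eq, Polynomial.finset_sum_coeff] at h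
  obtain ⟨s, hs, hs2⟩ := Finset.exists_ne_zero_of_sum_ne_zero h
  refine ⟨s, hs, ?_⟩
  by_contra hne
  rw [Polynomial.coeff_monomial, if_neg hne] at hs2
  exact hs2 rfl

theorem sp_C (e : Fin k → ℕ) (a : R) : sp e (MvPolynomial.C a : MvPolynomial (Fin k) R) =
    Polynomial.C a := by
  unfold sp
  simp

theorem sp_map {S : Type*} [CommRing S] (φ : R →+* S) (e : Fin k → ℕ)
    (p : MvPolynomial (Fin k) R) : (sp e p).map φ = sp e (MvPolynomial.map φ p) := by
  induction p using MvPolynomial.induction_on with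
  | C a =>
    rw [MvPolynomial.map_C, sp_C, sp_C, Polynomial.map_C]
  | add p q hp hq => rw [map_add, map_add, map_add, Polynomial.map_add, hp, hq]
  | mul_X p i hp =>
    rw [map_mul, map_mul, map_mul, Polynomial.map_mul, hp, MvPolynomial.map_X]
    congr 1
    unfold sp
    simp

end general

theorem spec_eq_sp {k : ℕ} (e : Fin k → ℕ) (F : MvPolynomial (Fin k) ℤ) : spec e F = sp e F := by
  unfold spec sp
  rw [MvPolynomial.aeval_def]
  rfl

/-- for large `n` the substitution `z_i = X ^ (n ^ i)` separates sums of two exponents -/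
theorem eventually_sep {k : ℕ} (S : Finset (Fin k →₀ ℕ)) :
    ∀ᶠ n : ℕ in atTop, ∀ s ∈ S, ∀ t ∈ S, ∀ u ∈ S, ∀ v ∈ S,
      dt (fun i : Fin k => n ^ (i : ℕ)) s + dt (fun i : Fin k => n ^ (i : ℕ)) t =
        dt (fun i : Fin k => n ^ (i : ℕ)) u + dt (fun i : Fin k => n ^ (i : ℕ)) v →
      s + t = u + v := by
  have h0 := asympIndep_pow k
  simp only [Filter.eventually_all_finset]
  intro s _ t _ u _ v _
  by_cases hne : s + t = u + v
  · exact Eventually.of_forall fun n _ => hne
  · have hw : (fun i : Fin k => ((s i : ℤ) + t i - u i - v i)) ≠ 0 := by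
      intro h
      apply hne
      ext i
      have := congrFun h i
      simp only [Pi.zero_apply] at this
      rw [Finsupp.add_apply, Finsupp.add_apply]
      omega
    filter_upwards [h0 _ hw] with n hn h
    exfalso
    apply hn
    unfold dt at h
    have h2 : ((∑ i : Fin k, n ^ (i : ℕ) * s i + ∑ i : Fin k, n ^ (i : ℕ) * t i : ℕ) : ℤ) =
        ((∑ i : Fin k, n ^ (i : ℕ) * u i + ∑ i : Fin k, n ^ (i : ℕ) * v i : ℕ) : ℤ) := by
      exact_mod_cast h
    push_cast at h2 ⊢
    have h3 : ∑ i : Fin k, ((s i : ℤ) + t i - u i - v i) * (n : ℤ) ^ (i : ℕ) =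
        (∑ i : Fin k, (n : ℤ) ^ (i : ℕ) * s i + ∑ i : Fin k, (n : ℤ) ^ (i : ℕ) * t i) -
        (∑ i : Fin k, (n : ℤ) ^ (i : ℕ) * u i + ∑ i : Fin k, (n : ℤ) ^ (i : ℕ) * v i) := by
      rw [← Finset.sum_add_distrib, ← Finset.sum_add_distrib, ← Finset.sum_sub_distrib]
      refine Finset.sum_congr rfl fun i _ => ?_
      ring
    rw [h3, h2, sub_self]

section norm

variable {E : Type} [Field E] [NumberField E] {k : ℕ}

/-- product of the conjugates of a polynomial in several variables -/
def cprod (f : MvPolynomial (Fin k) (𝓞 E)) : MvPolynomial (Fin k) ℂ :=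
  ∏ σ : E →+* ℂ, MvPolynomial.map (emb σ) f

/-- the product of the conjugates has integral coefficients -/
theorem norm_int (f : MvPolynomial (Fin k) (𝓞 E)) :
    ∃ F : MvPolynomial (Fin k) ℤ, MvPolynomial.map (Int.castRingHom ℂ) F = cprod f := by
  classical
  obtain ⟨n, hn⟩ := (eventually_sep (cprod f).support).exists
  set e : Fin k → ℕ := fun i => n ^ (i : ℕ) with he
  have hinj : ∀ s ∈ (cprod f).support, ∀ t ∈ (cprod f).support, dt e s = dt e t → s = t := by
    intro s hs t ht h
    have := hn s hs s hs t ht s hs (by rw [h])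
    exact add_right_cancel this
  obtain ⟨P, hP⟩ := normPoly_int E (sp e f)
  have h1 : sp e (cprod f) = P.map (Int.castRingHom ℂ) := by
    have h2 : toC P = P.map (Int.castRingHom ℂ) := rfl
    rw [← h2, hP]
    unfold cprod normPoly
    rw [map_prod]
    refine Finset.prod_congr rfl fun σ _ => ?_
    rw [sp_map]
  have h3 : cprod f ∈ Set.range (MvPolynomial.map (σ := Fin k) (Int.castRingHom ℂ)) := by
    rw [MvPolynomial.mem_range_map_iff_coeffs_subset]
    intro a ha
    obtain ⟨s, hs, rfl⟩ := MvPolynomial.mem_coeffs_iff.1 ha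
    rw [← sp_coeff e (cprod f) hinj s hs, h1, Polynomial.coeff_map]
    exact ⟨_, rfl⟩
  exact h3

end norm

end

end Pool.Agent.TH845.KN
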