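import Pool.Agent.H2.L.R_seed8.TH845.KN.A3

/-!
# The lower bound in several variables
-/

set_option autoImplicit false

open NumberField Filter

namespace Pool.Agent.TH845.KN

open Pool.Agent.W242.IM Pool.Agent.H261R2.CM

noncomputable section

variable {E : Type} [Field E] [NumberField E] {k : ℕ}

/-- `f` is, up to a constant factor, its conjugate reciprocal -/
def SelfDual (c : 𝓞 E →+* 𝓞 E) (f : MvPolynomial (Fin k) (𝓞 E)) : Prop :=
  ∃ s0 ∈ f.support, ∃ s1 ∈ f.support, ∀ s ∈ f.support, ∃ s' ∈ f.support, s + s' = s0 + s1 ∧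
    c (f.coeff s1) * f.coeff s = f.coeff s0 * c (f.coeff s')

theorem mahler_X_pow (a : ℕ) : ((Polynomial.X : Polynomial ℂ) ^ a).mahlerMeasure = 1 := by
  induction a with
  | zero => simp
  | succ n ih =>
    have h := Polynomial.mahlerMeasure_X_sub_C 0
    rw [map_zero, sub_zero, norm_zero, max_eq_left zero_le_one] at h
    rw [pow_succ, Polynomial.mahlerMeasure_mul, ih, h, one_mul]

theorem sp_bound {c : 𝓞 E →+* 𝓞 E} (hc : IsConj c) (f : MvPolynomial (Fin k) (𝓞 E)) (hf : f ≠ 0)
    (hnr : ¬ SelfDual c f) (e : Fin k → ℕ)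
    (he : ∀ s ∈ f.support, ∀ t ∈ f.support, ∀ u ∈ f.support, ∀ v ∈ f.support,
      dt e s + dt e t = dt e u + dt e v → s + t = u + v) :
    (2 : ℝ) ^ Module.finrank ℚ E ≤
      (∏ σ : E →+* ℂ, ((sp e f).map (emb σ)).mahlerMeasure) ^ 3 := by
  classical
  have hinj : ∀ s ∈ f.support, ∀ t ∈ f.support, dt e s = dt e t → s = t := by
    intro s hs t ht h
    have := he s hs s hs t ht s hs (by rw [h])
    exact add_right_cancel this
  set q := sp e f with hq
  have hcf : ∀ s ∈ f.support, q.coeff (dt e s) = f.coeff s := fun s hs => sp_coeff e f hinj s hs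
  have hq0 : q ≠ 0 := by
    obtain ⟨s, hs⟩ := MvPolynomial.support_nonempty.2 hf
    intro h
    have h1 := hcf s hs
    rw [h, Polynomial.coeff_zero] at h1
    exact (MvPolynomial.mem_support_iff.1 hs) h1.symm
  set a := q.natTrailingDegree with ha
  obtain ⟨g, hg⟩ : Polynomial.X ^ a ∣ q := by
    rw [Polynomial.X_pow_dvd_iff]
    intro d hd
    exact Polynomial.coeff_eq_zero_of_lt_natTrailingDegree hd
  have hgc : ∀ i, g.coeff i = q.coeff (i + a) := by
    intro i
    rw [hg, Polynomial.coeff_X_pow_mul]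
  have hg0 : g ≠ 0 := by
    rintro rfl
    rw [mul_zero] at hg
    exact hq0 hg
  have hgz : g.coeff 0 ≠ 0 := by
    rw [hgc, zero_add]
    exact mt Polynomial.trailingCoeff_eq_zero.1 hq0
  have hdeg : q.natDegree = g.natDegree + a := by
    rw [hg, Polynomial.natDegree_X_pow_mul _ hg0]
  have hM : ∀ σ : E →+* ℂ, (q.map (emb σ)).mahlerMeasure = (g.map (emb σ)).mahlerMeasure := by
    intro σ
    rw [hg, Polynomial.map_mul, Polynomial.mahlerMeasure_mul, Polynomial.map_pow,
      Polynomial.map_X, mahler_X_pow, one_mul]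
  have hmain := one_var hc g hgz ?_
  · refine hmain.trans (le_of_eq ?_)
    congr 1
    exact Finset.prod_congr rfl fun σ _ => (hM σ).symm
  -- the polynomial `g` is not self dual
  intro heq
  apply hnr
  obtain ⟨s0, hs0, hs0a⟩ := sp_coeff_ne e f a (by
    have := hgz
    rwa [hgc, zero_add] at this)
  obtain ⟨s1, hs1, hs1a⟩ := sp_coeff_ne e f q.natDegree (by
    rw [← hq]
    exact mt Polynomial.leadingCoeff_eq_zero.1 hq0)
  refine ⟨s0, hs0, s1, hs1, fun s hs => ?_⟩
  have hle : a ≤ dt e s := by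
    apply Polynomial.natTrailingDegree_le_of_ne_zero
    rw [hcf s hs]
    exact MvPolynomial.mem_support_iff.1 hs
  have hle2 : dt e s ≤ q.natDegree := by
    apply Polynomial.le_natDegree_of_ne_zero
    rw [hcf s hs]
    exact MvPolynomial.mem_support_iff.1 hs
  have hgi : g.coeff (dt e s - a) = f.coeff s := by
    rw [hgc, Nat.sub_add_cancel hle, hcf s hs]
  have hlead : g.leadingCoeff = f.coeff s1 := by
    unfold Polynomial.leadingCoeff
    rw [hgc, ← hdeg, ← hs1a, hcf s1 hs1]
  have hzero : g.coeff 0 = f.coeff s0 := by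
    rw [hgc, zero_add, ← hs0a, hcf s0 hs0]
  have h1 := congrArg (fun r => Polynomial.coeff r (dt e s - a)) heq
  simp only [Polynomial.coeff_C_mul, Polynomial.coeff_map, Polynomial.coeff_reverse] at h1
  rw [Polynomial.revAt_le (by omega), hgi, hlead, hzero, hgc] at h1
  have hcs : f.coeff s ≠ 0 := MvPolynomial.mem_support_iff.1 hs
  have hc1 : c (f.coeff s1) ≠ 0 := by
    intro h
    have h2 := hc (Classical.arbitrary (E →+* ℂ)) (f.coeff s1)
    rw [h, map_zero] at h2
    have h3 : emb (Classical.arbitrary (E →+* ℂ)) (f.coeff s1) = 0 := by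
      have := (_root_.map_eq_zero (starRingEnd ℂ)).1 h2.symm
      exact this
    have h4 := (map_eq_zero_iff _ (emb_injective _)).1 h3
    exact MvPolynomial.mem_support_iff.1 hs1 h4
  have hne : q.coeff (g.natDegree - (dt e s - a) + a) ≠ 0 := by
    intro h
    rw [h, map_zero, mul_zero] at h1
    exact (mul_ne_zero hc1 hcs) h1
  obtain ⟨s', hs', hs'a⟩ := sp_coeff_ne e f _ hne
  have h5 : dt e s + dt e s' = dt e s0 + dt e s1 := by
    rw [hs'a, hs0a, hs1a, hdeg]
    rw [hdeg] at hle2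
    omega
  refine ⟨s', hs', he s hs s' hs' s0 hs0 s1 hs1 h5, ?_⟩
  rw [← hs'a, hcf s' hs'] at h1
  exact h1

/-- **Lower bound for the measures of norms.** -/
theorem lower_bound {c : 𝓞 E →+* 𝓞 E} (hc : IsConj c) (f : MvPolynomial (Fin k) (𝓞 E)) (hf : f ≠ 0)
    (hnr : ¬ SelfDual c f) (F : MvPolynomial (Fin k) ℤ) (hF0 : F ≠ 0)
    (hF : MvPolynomial.map (Int.castRingHom ℂ) F = cprod f) :
    (2 : ℝ) ^ Module.finrank ℚ E ≤ mM F ^ 3 := by
  have h1 := m1_lim atTop (fun (n : ℕ) (i : Fin k) => n ^ (i : ℕ)) (asympIndep_pow k) F hF0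
  have h2 := h1.pow 3
  refine ge_of_tendsto h2 ?_
  filter_upwards [eventually_sep f.support] with n hn
  have h3 := sp_bound hc f hf hnr _ hn
  refine h3.trans (le_of_eq ?_)
  congr 1
  unfold m1
  rw [spec_eq_sp]
  have h4 : toC (sp (fun i : Fin k => n ^ (i : ℕ)) F) =
      ∏ σ : E →+* ℂ, (sp (fun i : Fin k => n ^ (i : ℕ)) f).map (emb σ) := by
    unfold toC
    rw [sp_map, hF]
    unfold cprod
    rw [map_prod]
    refine Finset.prod_congr rfl fun σ _ => ?_
    rw [sp_map]
  rw [h4]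
  classical
  have h5 : ∀ (S : Finset (E →+* ℂ)) (p : (E →+* ℂ) → Polynomial ℂ),
      (∏ σ ∈ S, p σ).mahlerMeasure = ∏ σ ∈ S, (p σ).mahlerMeasure := by
    intro S p
    induction S using Finset.induction_on with
    | empty => simp
    | insert a S ha ih => rw [Finset.prod_insert ha, Finset.prod_insert ha,
        Polynomial.mahlerMeasure_mul, ih]
  rw [h5]

end

end Pool.Agent.TH845.KN
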