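import Pool.Agent.H2.L.R_seed8.TH845.KN.A5

/-!
# Coprimality of norms
-/

set_option autoImplicit false

open NumberField Filter

namespace Pool.Agent.TH845.KN

open Pool.Agent.W242.IM Pool.Agent.H261R2.CM

noncomputable section

variable {E : Type} [Field E] [NumberField E] {k : ℕ}

/-- `ν` is the norm of `η` -/
def IsN (η : MvPolynomial (Fin k) E) (ν : MvPolynomial (Fin k) ℚ) : Prop :=
  MvPolynomial.map (algebraMap ℚ ℂ) ν = ∏ σ : E →+* ℂ, MvPolynomial.map σ η

theorem mapQC_injective : Function.Injective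
    (MvPolynomial.map (σ := Fin k) (algebraMap ℚ ℂ)) :=
  MvPolynomial.map_injective _ (algebraMap ℚ ℂ).injective

theorem isN_unique {η : MvPolynomial (Fin k) E} {ν ν' : MvPolynomial (Fin k) ℚ}
    (h : IsN η ν) (h' : IsN η ν') : ν = ν' :=
  mapQC_injective (h.trans h'.symm)

theorem isN_mul {η η' : MvPolynomial (Fin k) E} {ν ν' : MvPolynomial (Fin k) ℚ}
    (h : IsN η ν) (h' : IsN η' ν') : IsN (η * η') (ν * ν') := by
  unfold IsN at *
  rw [map_mul, h, h', ← Finset.prod_mul_distrib]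
  refine Finset.prod_congr rfl fun σ _ => ?_
  rw [map_mul]

theorem isN_map (ρ : MvPolynomial (Fin k) ℚ) :
    IsN (MvPolynomial.map (algebraMap ℚ E) ρ) (ρ ^ Module.finrank ℚ E) := by
  unfold IsN
  have h1 : ∀ σ : E →+* ℂ, MvPolynomial.map σ (MvPolynomial.map (algebraMap ℚ E) ρ) =
      MvPolynomial.map (algebraMap ℚ ℂ) ρ := by
    intro σ
    rw [MvPolynomial.map_map]
    congr 1
    exact congrArg _ (RingHom.ext_rat _ _)
  simp only [h1]
  rw [Finset.prod_const, Finset.card_univ, NumberField.Embeddings.card, map_pow]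

theorem prod_emb_rat (x : E) :
    (∏ σ : E →+* ℂ, σ x) = algebraMap ℚ ℂ (Algebra.norm ℚ x) := by
  rw [Algebra.norm_eq_prod_embeddings ℚ ℂ x]
  exact Fintype.prod_equiv (RingHom.equivRatAlgHom E ℂ) _ _ fun σ => rfl

theorem isN_of_int {f : MvPolynomial (Fin k) (𝓞 E)} {F : MvPolynomial (Fin k) ℤ}
    (hF : MvPolynomial.map (Int.castRingHom ℂ) F = cprod f) :
    IsN (toE f) (MvPolynomial.map (Int.castRingHom ℚ) F) := by
  unfold IsN toE
  rw [MvPolynomial.map_map]
  have h1 : (algebraMap ℚ ℂ).comp (Int.castRingHom ℚ) = Int.castRingHom ℂ := RingHom.ext_int _ _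
  rw [h1, hF]
  unfold cprod
  refine Finset.prod_congr rfl fun σ _ => ?_
  rw [MvPolynomial.map_map]
  rfl

theorem exists_isN (η : MvPolynomial (Fin k) E) : ∃ ν, IsN η ν := by
  classical
  obtain ⟨b, hb⟩ := IsLocalization.exist_integer_multiples_of_finset (nonZeroDivisors (𝓞 E))
    (η.support.image fun s => η.coeff s)
  have hb0 : (algebraMap (𝓞 E) E) (b : 𝓞 E) ≠ 0 := by
    rw [Ne, map_eq_zero_iff _ (RingOfIntegers.coe_injective)]
    exact nonZeroDivisors.coe_ne_zero b
  have h1 : ∃ f : MvPolynomial (Fin k) (𝓞 E), toE f =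
      MvPolynomial.C ((algebraMap (𝓞 E) E) (b : 𝓞 E)) * η := by
    have h2 : MvPolynomial.C ((algebraMap (𝓞 E) E) (b : 𝓞 E)) * η ∈
        Set.range (MvPolynomial.map (σ := Fin k) (algebraMap (𝓞 E) E)) := by
      rw [MvPolynomial.mem_range_map_iff_coeffs_subset]
      intro a ha
      obtain ⟨s, hs, rfl⟩ := MvPolynomial.mem_coeffs_iff.1 ha
      rw [MvPolynomial.coeff_C_mul]
      by_cases hs2 : s ∈ η.support
      · obtain ⟨y, hy⟩ := hb (η.coeff s) (Finset.mem_image_of_mem _ hs2)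
        refine ⟨y, ?_⟩
        rw [hy, Algebra.smul_def]
      · rw [MvPolynomial.notMem_support_iff.1 hs2, mul_zero]
        exact ⟨0, map_zero _⟩
    exact h2
  obtain ⟨f, hf⟩ := h1
  obtain ⟨F, hF⟩ := norm_int f
  have h3 := isN_of_int hF
  rw [hf] at h3
  set x := (algebraMap (𝓞 E) E) (b : 𝓞 E) with hx
  have hN : Algebra.norm ℚ x ≠ 0 := Algebra.norm_ne_zero_iff.2 hb0
  refine ⟨MvPolynomial.C (Algebra.norm ℚ x)⁻¹ * MvPolynomial.map (Int.castRingHom ℚ) F, ?_⟩
  unfold IsN at h3 ⊢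
  rw [map_mul, h3, MvPolynomial.map_C]
  have h4 : ∀ σ : E →+* ℂ, MvPolynomial.map σ (MvPolynomial.C x * η) =
      MvPolynomial.C (σ x) * MvPolynomial.map σ η := by
    intro σ
    rw [map_mul, MvPolynomial.map_C]
  simp only [h4]
  rw [Finset.prod_mul_distrib, ← map_prod, prod_emb_rat, ← mul_assoc, ← map_mul, ← map_mul,
    inv_mul_cancel₀ hN, map_one, map_one, one_mul]

/-- a polynomial divides its norm -/
theorem dvd_isN {η : MvPolynomial (Fin k) E} {ν : MvPolynomial (Fin k) ℚ} (h : IsN η ν) :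
    η ∣ MvPolynomial.map (algebraMap ℚ E) ν := by
  classical
  set σ0 : E →+* ℂ := Classical.arbitrary _ with hσ0
  set q : MvPolynomial (Fin k) ℂ := ∏ σ ∈ Finset.univ.erase σ0, MvPolynomial.map σ η with hq
  have h1 : MvPolynomial.map (algebraMap ℚ ℂ) ν = MvPolynomial.map σ0 η * q := by
    rw [h, hq]
    exact (Finset.mul_prod_erase Finset.univ (fun σ : E →+* ℂ => MvPolynomial.map σ η)
      (Finset.mem_univ σ0)).symm
  letI : Algebra E ℂ := σ0.toAlgebra
  obtain ⟨L, hL⟩ := LinearMap.exists_leftInverse_of_injective (Algebra.linearMap E ℂ)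
    (LinearMap.ker_eq_bot.2 (fun x y hxy => σ0.injective hxy))
  have hL1 : ∀ x : E, L (σ0 x) = x := fun x => LinearMap.congr_fun hL x
  have hL2 : ∀ (x : E) (y : ℂ), L (σ0 x * y) = x * L y := by
    intro x y
    have : σ0 x * y = x • y := by rw [Algebra.smul_def]; rfl
    rw [this, map_smul, smul_eq_mul]
  set q' : MvPolynomial (Fin k) E := ∑ s ∈ q.support, MvPolynomial.monomial s (L (q.coeff s))
    with hq'
  have hqc : ∀ s, q'.coeff s = L (q.coeff s) := by
    intro s
    rw [hq', MvPolynomial.coeff_sum]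
    simp only [MvPolynomial.coeff_monomial]
    rw [Finset.sum_ite_eq']
    split_ifs with hs
    · rfl
    · rw [MvPolynomial.notMem_support_iff.1 hs, map_zero]
  refine ⟨q', ?_⟩
  ext m
  rw [MvPolynomial.coeff_mul, MvPolynomial.coeff_map]
  have h2 := congrArg (fun p => L (MvPolynomial.coeff m p)) h1
  simp only [MvPolynomial.coeff_mul, MvPolynomial.coeff_map, map_sum, hL2] at h2
  have h3 : algebraMap ℚ ℂ (ν.coeff m) = σ0 (algebraMap ℚ E (ν.coeff m)) := by
    have := RingHom.congr_fun (RingHom.ext_rat (algebraMap ℚ ℂ) (σ0.comp (algebraMap ℚ E))) (ν.coeff m)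
    exact this
  rw [h3, hL1] at h2
  rw [h2]
  refine Finset.sum_congr rfl fun x _ => ?_
  rw [hqc]

/-- a prime of `E[z]` dividing a rational polynomial divides one of its irreducible factors -/
theorem exists_factor_dvd {i : MvPolynomial (Fin k) E} (hi : Prime i)
    (ν : MvPolynomial (Fin k) ℚ) (hν : ν ≠ 0) (h : i ∣ MvPolynomial.map (algebraMap ℚ E) ν) :
    ∃ ρ, Irreducible ρ ∧ ρ ∣ ν ∧ i ∣ MvPolynomial.map (algebraMap ℚ E) ρ := by
  induction ν using WfDvdMonoid.induction_on_irreducible with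
  | zero => exact absurd rfl hν
  | unit u hu =>
    exact absurd (isUnit_of_dvd_unit h (hu.map (MvPolynomial.map (algebraMap ℚ E)))) hi.not_unit
  | mul a j ha hj ih =>
    rw [map_mul] at h
    rcases hi.dvd_or_dvd h with h1 | h1
    · exact ⟨j, hj, dvd_mul_right _ _, h1⟩
    · obtain ⟨ρ, h2, h3, h4⟩ := ih ha h1
      exact ⟨ρ, h2, dvd_mul_of_dvd_right h3 _, h4⟩

theorem isN_ne_zero {η : MvPolynomial (Fin k) E} {ν : MvPolynomial (Fin k) ℚ} (h : IsN η ν)
    (hη : η ≠ 0) : ν ≠ 0 := by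
  rintro rfl
  unfold IsN at h
  rw [map_zero] at h
  obtain ⟨σ, _, hσ⟩ := Finset.prod_eq_zero_iff.1 h.symm
  exact hη (MvPolynomial.map_injective σ σ.injective (by rw [hσ, map_zero]))

/-- if a prime `π` of `ℚ[z]` divides the norm of `h` then `π` and `h` have a common factor -/
theorem common_factor (π : MvPolynomial (Fin k) ℚ) (hπ : Prime π) (h : MvPolynomial (Fin k) E)
    (h0 : h ≠ 0) (ν : MvPolynomial (Fin k) ℚ) (hN : IsN h ν) (hdvd : π ∣ ν) :
    ∃ η, Irreducible η ∧ η ∣ h ∧ η ∣ MvPolynomial.map (algebraMap ℚ E) π := by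
  induction h using WfDvdMonoid.induction_on_irreducible generalizing ν with
  | zero => exact absurd rfl h0
  | unit u hu =>
    exfalso
    obtain ⟨v, hv⟩ := hu.exists_right_inv
    obtain ⟨ν', hν'⟩ := exists_isN v
    have h1 := isN_mul hN hν'
    rw [hv] at h1
    have h2 : IsN (1 : MvPolynomial (Fin k) E) 1 := by
      unfold IsN
      simp
    have h3 := isN_unique h1 h2
    exact hπ.not_unit (isUnit_of_dvd_unit hdvd (IsUnit.of_mul_eq_one _ h3))
  | mul a i ha hi ih =>
    obtain ⟨ν1, h1⟩ := exists_isN i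
    obtain ⟨ν2, h2⟩ := exists_isN a
    have h3 := isN_unique hN (isN_mul h1 h2)
    rw [h3] at hdvd
    rcases hπ.dvd_or_dvd hdvd with h4 | h4
    · refine ⟨i, hi, dvd_mul_right _ _, ?_⟩
      have hν1 := isN_ne_zero h1 hi.ne_zero
      obtain ⟨ρ, g1, g2, θ, g3⟩ := exists_factor_dvd hi.prime ν1 hν1 (dvd_isN h1)
      obtain ⟨ν3, h5⟩ := exists_isN θ
      have h6 := isN_mul h1 h5
      rw [← g3] at h6
      have h7 := isN_unique (isN_map ρ) h6
      have h8 : π ∣ ρ ^ Module.finrank ℚ E := by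
        rw [h7]
        exact dvd_mul_of_dvd_left h4 _
      have h9 := hπ.dvd_of_dvd_pow h8
      have h10 : Associated π ρ := hπ.irreducible.associated_of_dvd g1 h9
      have h11 := h10.map (MvPolynomial.map (algebraMap ℚ E))
      exact (Dvd.intro _ g3.symm).trans h11.symm.dvd
    · obtain ⟨η, e1, e2, e3⟩ := ih ha ν2 h2 h4
      exact ⟨η, e1, dvd_mul_of_dvd_right e2 _, e3⟩

end

end Pool.Agent.TH845.KN
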