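import Pool.Agent.H2.L.R_seed8.TH845.KN.A6
import Pool.Agent.H2.L.R_seed8.H261R2.CM.K6

/-!
# The companion of the norm of a polynomial without self dual factors
-/

set_option autoImplicit false

open NumberField Filter

namespace Pool.Agent.TH845.KN

open Pool.Agent.W242.IM Pool.Agent.H261R2.CM

noncomputable section

section field

variable {E : Type} [Field E] {k : ℕ}

/-- the homomorphism `z_0 ↦ a`, `z_(i+1) ↦ z_i` -/
def sub0 (a : E) : MvPolynomial (Fin (k + 1)) E →ₐ[E] MvPolynomial (Fin k) E :=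
  MvPolynomial.aeval (Fin.cases (MvPolynomial.C a) MvPolynomial.X)

theorem sub0_rename (a : E) (A : MvPolynomial (Fin k) E) :
    sub0 a (MvPolynomial.rename Fin.succ A) = A := by
  unfold sub0
  rw [MvPolynomial.aeval_rename]
  have : (Fin.cases (MvPolynomial.C a) MvPolynomial.X : Fin (k + 1) → MvPolynomial (Fin k) E) ∘
      Fin.succ = MvPolynomial.X := by
    funext i
    simp
  rw [this, MvPolynomial.aeval_X_left_apply]

theorem sub0_X0 (a : E) : sub0 (k := k) a (MvPolynomial.X 0) = MvPolynomial.C a := by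
  unfold sub0
  rw [MvPolynomial.aeval_X]
  rfl

theorem degreeOf_zero_of_dvd' {π A : MvPolynomial (Fin k) E} (hA : A ≠ 0) (h : π ∣ A) (i : Fin k)
    (hi : MvPolynomial.degreeOf i A = 0) : MvPolynomial.degreeOf i π = 0 := by
  obtain ⟨q, rfl⟩ := h
  rw [MvPolynomial.degreeOf_mul_eq (left_ne_zero_of_mul hA) (right_ne_zero_of_mul hA)] at hi
  omega

theorem degreeOf_rename' (A : MvPolynomial (Fin k) E) :
    MvPolynomial.degreeOf 0 (MvPolynomial.rename Fin.succ A) = 0 := by
  by_contra h
  rw [MvPolynomial.degreeOf_eq_sup] at h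
  have h2 : ∃ m ∈ (MvPolynomial.rename Fin.succ A).support, m 0 ≠ 0 := by
    by_contra hc
    push Not at hc
    apply h
    exact (Finset.sup_eq_bot_iff _ _).2 hc
  obtain ⟨m, hm, hm0⟩ := h2
  have h3 : (0 : Fin (k + 1)) ∈ (MvPolynomial.rename Fin.succ A).vars := by
    rw [MvPolynomial.mem_vars]
    exact ⟨m, hm, Finsupp.mem_support_iff.2 hm0⟩
  have h4 := MvPolynomial.vars_rename Fin.succ A h3
  rw [Finset.mem_image] at h4
  obtain ⟨j, _, hj⟩ := h4
  exact Fin.succ_ne_zero j hj

theorem exists_rename' {π : MvPolynomial (Fin (k + 1)) E} (h : MvPolynomial.degreeOf 0 π = 0) :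
    ∃ π₀ : MvPolynomial (Fin k) E, MvPolynomial.rename Fin.succ π₀ = π := by
  apply MvPolynomial.exists_rename_eq_of_vars_subset_range π Fin.succ (Fin.succ_injective k)
  intro i hi
  rw [Finset.mem_coe, MvPolynomial.mem_vars] at hi
  obtain ⟨d, hd, hdi⟩ := hi
  rw [Finsupp.mem_support_iff] at hdi
  have hi0 : i ≠ 0 := by
    rintro rfl
    have := MvPolynomial.monomial_le_degreeOf 0 hd
    omega
  exact ⟨i.pred hi0, Fin.succ_pred i hi0⟩

end field

variable {E : Type} [Field E] [NumberField E] {k : ℕ}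

/-- common divisors of `F` and of the norm of `f + u g` are constant -/
theorem const_of_dvd (f g : MvPolynomial (Fin k) E) (hf : f ≠ 0) (hfg : IsRelPrime f g)
    (F : MvPolynomial (Fin k) ℤ) (hF : F ≠ 0) (P : MvPolynomial (Fin (k + 1)) ℤ)
    (hP : IsN (MvPolynomial.rename Fin.succ f + MvPolynomial.X 0 * MvPolynomial.rename Fin.succ g)
      (MvPolynomial.map (Int.castRingHom ℚ) P))
    (d : MvPolynomial (Fin (k + 1)) ℤ) (h1 : d ∣ MvPolynomial.rename Fin.succ F) (h2 : d ∣ P) :
    ∃ a : ℤ, d = MvPolynomial.C a := by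
  classical
  set h := MvPolynomial.rename Fin.succ f + MvPolynomial.X 0 * MvPolynomial.rename Fin.succ g
    with hh
  have hs0 : sub0 0 h = f := by
    rw [hh, map_add, map_mul, sub0_rename, sub0_rename, sub0_X0, map_zero, zero_mul, add_zero]
  have hs1 : sub0 1 h = f + g := by
    rw [hh, map_add, map_mul, sub0_rename, sub0_rename, sub0_X0, map_one, one_mul]
  have h0 : h ≠ 0 := by
    intro h3
    rw [h3, map_zero] at hs0
    exact hf hs0.symm
  set dQ := MvPolynomial.map (Int.castRingHom ℚ) d with hdQ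
  by_cases hu : IsUnit dQ
  · rw [MvPolynomial.isUnit_iff_eq_C_of_isReduced] at hu
    obtain ⟨r, _, hr⟩ := hu
    refine ⟨d.coeff 0, ?_⟩
    ext m
    rw [MvPolynomial.coeff_C]
    split_ifs with hm
    · rw [← hm]
    · have h3 := congrArg (MvPolynomial.coeff m) hr
      rw [hdQ, MvPolynomial.coeff_map, MvPolynomial.coeff_C, if_neg hm] at h3
      simpa using h3
  · exfalso
    have hrF : MvPolynomial.rename Fin.succ F ≠ 0 := by
      intro h3
      exact hF (MvPolynomial.rename_injective _ (Fin.succ_injective k) (by rw [h3, map_zero]))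
    have hd0 : d ≠ 0 := by
      rintro rfl
      exact hrF (zero_dvd_iff.1 h1)
    have hdQ0 : dQ ≠ 0 := by
      intro h3
      exact hd0 (MvPolynomial.map_injective _ (Int.cast_injective (α := ℚ)) (by
        rw [← hdQ, h3, map_zero]))
    obtain ⟨π, hπ, hπd⟩ := WfDvdMonoid.exists_irreducible_factor hu hdQ0
    obtain ⟨η, hη, hη1, hη2⟩ := common_factor π hπ.prime h h0 _ hP
      (hπd.trans (map_dvd (MvPolynomial.map (Int.castRingHom ℚ)) h2))
    set FE := MvPolynomial.map (algebraMap ℚ E) (MvPolynomial.map (Int.castRingHom ℚ) F) with hFE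
    have hFE0 : MvPolynomial.rename Fin.succ FE ≠ 0 := by
      intro h3
      have h4 : FE = 0 := MvPolynomial.rename_injective _ (Fin.succ_injective k)
        (by rw [h3, map_zero])
      have h5 : MvPolynomial.map (Int.castRingHom ℚ) F = 0 :=
        MvPolynomial.map_injective _ (algebraMap ℚ E).injective (by rw [← hFE, h4, map_zero])
      exact hF (MvPolynomial.map_injective _ (Int.cast_injective (α := ℚ)) (by
        rw [h5, map_zero]))
    have h3 : η ∣ MvPolynomial.rename Fin.succ FE := by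
      refine hη2.trans ((map_dvd _ (hπd.trans (map_dvd (MvPolynomial.map (Int.castRingHom ℚ)) h1))).trans ?_)
      rw [MvPolynomial.map_rename, MvPolynomial.map_rename]
    have h4 := degreeOf_zero_of_dvd' hFE0 h3 0 (degreeOf_rename' FE)
    obtain ⟨η', rfl⟩ := exists_rename' h4
    have h5 := map_dvd (sub0 (k := k) (0 : E)) hη1
    have h6 := map_dvd (sub0 (k := k) (1 : E)) hη1
    rw [sub0_rename, hs0] at h5
    rw [sub0_rename, hs1] at h6
    have h7 : η' ∣ g := (dvd_add_right h5).1 h6
    exact hη.not_isUnit ((hfg h5 h7).map (MvPolynomial.rename Fin.succ))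

/-- primitive part -/
theorem exists_primitive (P : MvPolynomial (Fin k) ℤ) (hP : P ≠ 0) :
    ∃ (a : ℤ) (P' : MvPolynomial (Fin k) ℤ), a ≠ 0 ∧ P = MvPolynomial.C a * P' ∧
      ∀ b : ℤ, MvPolynomial.C b ∣ P' → IsUnit b := by
  classical
  set a := P.support.gcd fun s => P.coeff s with ha
  have ha0 : a ≠ 0 := by
    obtain ⟨s, hs⟩ := MvPolynomial.support_nonempty.2 hP
    intro h
    have := Finset.gcd_dvd (f := fun s => P.coeff s) hs
    rw [← ha, h, zero_dvd_iff] at this
    exact MvPolynomial.mem_support_iff.1 hs this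
  have hdvd : MvPolynomial.C a ∣ P := by
    rw [MvPolynomial.C_dvd_iff_dvd_coeff]
    intro s
    by_cases hs : s ∈ P.support
    · exact Finset.gcd_dvd hs
    · rw [MvPolynomial.notMem_support_iff.1 hs]
      exact dvd_zero _
  obtain ⟨P', hP'⟩ := hdvd
  refine ⟨a, P', ha0, hP', fun b hb => ?_⟩
  have h1 : MvPolynomial.C (a * b) ∣ P := by
    rw [hP', map_mul]
    exact mul_dvd_mul_left _ hb
  rw [MvPolynomial.C_dvd_iff_dvd_coeff] at h1
  have h2 : a * b ∣ a := Finset.dvd_gcd fun s _ => h1 s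
  have h3 : a * b ∣ a * 1 := by rwa [mul_one]
  exact isUnit_of_dvd_one ((mul_dvd_mul_iff_left ha0).1 h3)

end

end Pool.Agent.TH845.KN
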